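import Mathlib
import Pool.Agent.W667.LP

set_option autoImplicit false

/-!
For every non-compact locally compact group `G` the homological dimension of the augmentation
module `ℂ` over `L¹(G)`, the small dimension, the global dimension and the bidimension of `L¹(G)`
are infinite.
-/

namespace Pool.Agent.Results.MP_df984a_an.AllGroups

open MeasureTheory Pool.Agent.Helper832.CD Pool.Agent.H203R3.BH Pool.Agent.W667

universe u

/-- `GA μ` is the Banach algebra `L¹(G, μ)` with convolution, `Aug μ` is the augmentation module. -/
theorem result (G : Type u) [Group G] [TopologicalSpace G] [IsTopologicalGroup G] [T2Space G]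
    [LocallyCompactSpace G] [NoncompactSpace G] [MeasurableSpace G] [BorelSpace G]
    (μ : Measure G) [μ.IsHaarMeasure] [μ.Regular] :
    (Aug μ).dh = ⊤ ∧ ds (GA μ) = ⊤ ∧ dg (GA μ) = ⊤ ∧ db (GA μ) = ⊤ :=
  ⟨aug_dh μ, ds_top μ, dg_top μ, db_top μ⟩

end Pool.Agent.Results.MP_df984a_an.AllGroups
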